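import Mathlib
import Pool.Agent.N343.AM.Stm

set_option autoImplicit false

namespace Pool.Agent.N950.AM

open Pool.Agent.N343.AM

lemma nil_mem_star (W : Set Wd) : ([] : Wd) ∈ star W := ⟨[], by simp, rfl⟩

lemma append_mem_star {W : Set Wd} {w s : Wd} (hw : w ∈ W) (hs : s ∈ star W) : w ++ s ∈ star W := by
  obtain ⟨l, hl, rfl⟩ := hs
  refine ⟨w :: l, fun x hx => ?_, rfl⟩
  rcases List.mem_cons.1 hx with rfl | hx
  · exact hw
  · exact hl x hx

lemma split_of_le {a b c d : Wd} (h : a ++ b = c ++ d) (hl : a.length ≤ c.length) :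
    ∃ e : Wd, c = a ++ e ∧ b = e ++ d := by
  obtain ⟨e, he⟩ := List.prefix_of_prefix_length_le (List.prefix_append a b)
    (h ▸ List.prefix_append c d) hl
  refine ⟨e, he.symm, ?_⟩
  rw [← he, List.append_assoc] at h
  exact List.append_cancel_left h

lemma star_ind {W : Set Wd} {p : Wd → Prop} (h0 : p [])
    (h1 : ∀ w ∈ W, ∀ s ∈ star W, p s → p (w ++ s)) : ∀ s ∈ star W, p s := by
  rintro s ⟨l, hl, rfl⟩
  induction l with
  | nil => exact h0
  | cons w l ih =>
    have hl' : ∀ x ∈ l, x ∈ W := fun x hx => hl x (List.mem_cons_of_mem _ hx)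
    exact h1 w (hl w List.mem_cons_self) _ ⟨l, hl', rfl⟩ (ih hl')

lemma low {W : Set Wd} {m : ℕ} (h : Lv W m) : ∀ s ∈ star W, ∀ n ≤ s.length,
    ∃ a ∈ star W, ∃ b ∈ star W, s = a ++ b ∧ a.length ≤ n ∧ n ≤ a.length + m := by
  refine star_ind ?_ ?_
  · intro n hn
    exact ⟨[], nil_mem_star W, [], nil_mem_star W, rfl, by simp, by simpa using hn.trans (by simp)⟩
  · intro w hw s hs ih n hn
    by_cases hnw : n < w.length
    · refine ⟨[], nil_mem_star W, w ++ s, append_mem_star hw hs, rfl, by simp, ?_⟩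
      have := h.len w hw
      simp only [List.length_nil]
      omega
    · rw [List.length_append] at hn
      obtain ⟨a, ha, b, hb, e, h1, h2⟩ := ih (n - w.length) (by omega)
      refine ⟨w ++ a, append_mem_star hw ha, b, hb, by rw [e, List.append_assoc], ?_, ?_⟩
      · rw [List.length_append]; omega
      · rw [List.length_append]; omega

lemma upp {W : Set Wd} {m : ℕ} (h : Lv W m) : ∀ s ∈ star W, ∀ n ≤ s.length,
    ∃ a ∈ star W, ∃ b ∈ star W, s = a ++ b ∧ n ≤ a.length ∧ a.length ≤ n + m := by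
  refine star_ind ?_ ?_
  · intro n hn
    exact ⟨[], nil_mem_star W, [], nil_mem_star W, rfl, hn, by simp⟩
  · intro w hw s hs ih n hn
    have hlen := h.len w hw
    by_cases hn0 : n = 0
    · subst hn0
      exact ⟨[], nil_mem_star W, w ++ s, append_mem_star hw hs, rfl, by simp, by simp⟩
    by_cases hnw : n ≤ w.length
    · refine ⟨w, ?_, s, hs, rfl, hnw, by omega⟩
      have := append_mem_star hw (nil_mem_star W)
      rwa [List.append_nil] at this
    · rw [List.length_append] at hn
      obtain ⟨a, ha, b, hb, e, h1, h2⟩ := ih (n - w.length) (by omega)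
      refine ⟨w ++ a, append_mem_star hw ha, b, hb, by rw [e, List.append_assoc], ?_, ?_⟩
      · rw [List.length_append]; omega
      · rw [List.length_append]; omega

theorem main : S_CUT := by
  intro W m h
  have h3 : ∀ v ∈ Fac W, ∃ a b : Wd, a.length ≤ m ∧ a ++ v ++ b ∈ star W := by
    rintro v ⟨a0, b0, hv⟩
    have hv' : a0 ++ (v ++ b0) ∈ star W := by rwa [← List.append_assoc]
    obtain ⟨a', ha', b', hb', e, h1, h2⟩ := low h _ hv' a0.length (by simp)
    obtain ⟨a, e1, e2⟩ := split_of_le e.symm h1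
    refine ⟨a, b0, ?_, ?_⟩
    · rw [e1, List.length_append] at h2
      omega
    · rw [List.append_assoc, ← e2]
      exact hb'
  refine ⟨low h, ?_, h3, ?_⟩
  · rintro s ⟨c, hc⟩ n hn
    obtain ⟨a', ha', b, hb, e, h1, h2⟩ := upp h _ hc (c.length + n)
      (by rw [List.length_append]; omega)
    obtain ⟨a, e1, e2⟩ := split_of_le e (by omega)
    rw [e1, List.length_append] at h1 h2
    exact ⟨a, b, hb, e2, by omega, by omega⟩
  · intro v hv
    obtain ⟨a, b, ha, hs⟩ := h3 v hv
    obtain ⟨a'', ha'', b'', hb'', e, h1, h2⟩ := upp h _ hs (a ++ v).length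
      (by rw [List.length_append (as := a ++ v)]; omega)
    obtain ⟨b', e1, e2⟩ := split_of_le e h1
    rw [e1, List.length_append (as := a ++ v)] at h2
    exact ⟨a, b', ha, by omega, e1 ▸ ha''⟩

end Pool.Agent.N950.AM
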